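import Mathlib
import Pool.Agent.N506.EX0
import Pool.Agent.V8H43.GS.Sh
import Pool.Agent.V8H43.GS.Ne

/-!
# Hyperfinite subshifts of the Hilbert cube are not generic for groups that are not exact

`shift γ x` is the function `δ ↦ x (γ⁻¹ δ)`, and `Shf G` is the set of all compact subsets of
`G → ℕ → [0,1]` which are mapped into themselves by all shifts, with the topology induced by the
Vietoris topology.
-/

set_option autoImplicit false

open Filter Topology Set TopologicalSpace MeasureTheory

namespace Pool.Agent.Results.MP_16db06_lc.NotComeager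

open Pool.Agent.V8H43.GS

/-- Hyperfiniteness of a relation on a topological space: it is the union of an increasing
sequence of Borel equivalence relations with finite classes. -/
def Hyperfinite {Z : Type} [TopologicalSpace Z] (E : Z → Z → Prop) : Prop :=
  ∃ R : ℕ → Z → Z → Prop, (∀ n, Equivalence (R n)) ∧
    (∀ n, MeasurableSet[borel (Z × Z)] {p : Z × Z | R n p.1 p.2}) ∧
    (∀ n z, {w | R n z w}.Finite) ∧
    (∀ n z w, R n z w → R (n + 1) z w) ∧
    (∀ z w, E z w ↔ ∃ n, R n z w)

/-- The orbit equivalence relation of the subshift `Y`, on the points of `Y`. -/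
def Orb {G : Type} [Group G] (Y : Shf G) (y z : (Y.1 : Set (G → ℕ → unitInterval))) : Prop :=
  ∃ γ : G, (z : G → ℕ → unitInterval) = shift γ (y : G → ℕ → unitInterval)

/-- The set of all subshifts whose orbit equivalence relation is hyperfinite. -/
def HypSh (G : Type) [Group G] : Set (Shf G) := {Y | Hyperfinite (Orb Y)}

/-- The set of all nonempty subshifts. -/
def NonemptySh (G : Type) [Group G] : Set (Shf G) :=
  {Y | (Y.1 : Set (G → ℕ → unitInterval)).Nonempty}

/-- A nonempty free hyperfinite subshift makes the group exact. -/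
theorem exact_of_free {G : Type} [Group G] [Countable G] (Y : Shf G)
    (hne : (Y.1 : Set (G → ℕ → unitInterval)).Nonempty) (hfree : Y ∈ FreeS G)
    (hhyp : Hyperfinite (Orb Y)) : Pool.Agent.N506.EX.IsExact G := by
  let Z : Type := (Y.1 : Set (G → ℕ → unitInterval))
  let act : MulAction G Z :=
    { smul := fun γ y => ⟨shift γ y.1, Y.2 γ y.1 y.2⟩
      one_smul := fun y => Subtype.ext (shift_one y.1)
      mul_smul := fun γ γ' y => Subtype.ext (shift_mul γ γ' y.1) }
  have hact : ∀ (γ : G) (y : Z), ((γ • y : Z) : G → ℕ → unitInterval) = shift γ y.1 :=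
    fun _ _ => rfl
  have hcont : ContinuousConstSMul G Z := ⟨fun γ =>
    ((continuous_shift γ).comp continuous_subtype_val).subtype_mk _⟩
  have hcomp : CompactSpace Z := isCompact_iff_compactSpace.1 Y.1.isCompact
  have hne' : Nonempty Z := hne.to_subtype
  let mz : MeasurableSpace Z := borel Z
  have bz : BorelSpace Z := ⟨rfl⟩
  have bzz : BorelSpace (Z × Z) := inferInstance
  have hO : HypOrb G Z := by
    obtain ⟨R, h1, h2, h3, h4, h5⟩ := hhyp
    refine ⟨R, h1, fun n => ?_, h3, h4, fun z w => ?_⟩
    · rw [bzz.measurable_eq]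
      exact h2 n
    · rw [← h5]
      exact ⟨fun ⟨γ, hγ⟩ => ⟨γ, Subtype.ext hγ⟩, fun ⟨γ, hγ⟩ => ⟨γ, congrArg Subtype.val hγ⟩⟩
  refine exact_of_measAmen (Z := Z) (measAmen_of_hyp (fun g z hgz => ?_) hO)
  exact hfree g z.1 z.2 (congrArg Subtype.val hgz)

/-- **Theorem.** (1) For every countable group `G` which is not exact, the subshifts with a
hyperfinite orbit equivalence relation do not form a comeagre set in the space of all subshifts of
the Hilbert cube shift; the nonempty ones among them even form a meagre set. (2) There is an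
infinite, finitely presented (hence countable) group with these two properties. -/
theorem result :
    (∀ (G : Type) [Group G] [Countable G], ¬ Pool.Agent.N506.EX.IsExact G →
      HypSh G ∉ residual (Shf G) ∧ IsMeagre (NonemptySh G ∩ HypSh G)) ∧
    ∃ (n : ℕ) (rels : Finset (FreeGroup (Fin n))),
      Infinite (PresentedGroup (rels : Set (FreeGroup (Fin n)))) ∧
      HypSh (PresentedGroup (rels : Set (FreeGroup (Fin n)))) ∉ residual _ ∧
      IsMeagre (NonemptySh (PresentedGroup (rels : Set (FreeGroup (Fin n)))) ∩ HypSh _) := by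
  have key : ∀ (G : Type) [Group G] [Countable G], ¬ Pool.Agent.N506.EX.IsExact G →
      HypSh G ∉ residual (Shf G) ∧ IsMeagre (NonemptySh G ∩ HypSh G) := by
    intro G _ _ hG
    constructor
    · intro h
      have h1 : HypSh G ∩ FreeS G ∈ residual (Shf G) := inter_mem h free_residual
      have hd := dense_of_mem_residual h1
      have hopen : IsOpen {Y : Shf G | Y.1 ≠ ⊥} :=
        (Compacts.isClopen_singleton_bot.isClosed.preimage continuous_subtype_val).isOpen_compl
      have hne : ({Y : Shf G | Y.1 ≠ ⊥}).Nonempty := by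
        refine ⟨⟨⊤, fun γ x _ => trivial⟩, ?_⟩
        intro h
        have h2 : (fun _ _ => 0 : G → ℕ → unitInterval) ∈ (⊤ : Compacts (G → ℕ → unitInterval)) :=
          trivial
        rw [show (⊤ : Compacts (G → ℕ → unitInterval)) = ⊥ from h] at h2
        exact h2
      obtain ⟨Y, hY1, hY2, hY3⟩ := hd.inter_open_nonempty _ hopen hne
      refine hG (exact_of_free Y ?_ hY3 hY2)
      rw [Set.nonempty_iff_ne_empty]
      intro h
      exact hY1 (SetLike.coe_injective (by rw [h]; rfl))
    · show _ᶜ ∈ residual (Shf G)
      filter_upwards [free_residual (G := G)] with Y hY h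
      exact hG (exact_of_free Y h.1 hY h.2)
  refine ⟨fun G _ _ h => key G h, ?_⟩
  obtain ⟨n, rels, h⟩ := exists_not_exact
  have hc : Countable (PresentedGroup (rels : Set (FreeGroup (Fin n)))) :=
    (PresentedGroup.mk_surjective (rels : Set (FreeGroup (Fin n)))).countable
  refine ⟨n, rels, ?_, key _ h⟩
  by_contra hinf
  rw [not_infinite_iff_finite] at hinf
  exact h (exact_of_finite _)

end Pool.Agent.Results.MP_16db06_lc.NotComeager
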